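import Pool.Agent.TH705.SM.CltE
import Pool.Agent.TH705.SM.CltI

set_option autoImplicit false

/-!
# The central limit theorem for the Birkhoff sums of the standard map, for every large parameter

`F_a(x, y) = (2x - y + a sin 2πx, x)` is the lift of the standard map `S_a` to the plane.  Let `f` be
a function of the first coordinate, of period one, continuously differentiable and of mean zero.
Fix the second coordinate `y` and choose `x` at random in `(0, 1]`.  The Birkhoff sum
`∑_{k < n} f(x_k)` is asymptotically Gaussian with variance `n ∫ f²`, with a rate, as soon as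
`n → ∞` and `n (log |a|)² / |a| → 0`.  No parameter is excluded, and `y` is arbitrary.
-/

open Real MeasureTheory Filter Topology ProbabilityTheory

namespace Pool.Agent.Results.MP_9ee088_an.BirkhoffSums

/-- The lift `(x, y) ↦ (2 x - y + a sin 2 π x, x)` of `S_a` to the plane. -/
noncomputable def planeMap (a : ℝ) (p : ℝ × ℝ) : ℝ × ℝ :=
  (2 * p.1 - p.2 + a * sin (2 * π * p.1), p.1)

/-- The normalised Birkhoff sum `n^(-1/2) ∑_{k < n} f(x_k)`, where `x_k` is the first coordinate of
the `k`-th point of the orbit of `(x, y)`. -/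
noncomputable def birkhoff (f : ℝ → ℝ) (a : ℝ) (n : ℕ) (x y : ℝ) : ℝ :=
  (∑ k ∈ Finset.range n, f ((planeMap a)^[k] (x, y)).1) / √n

/-- The error `n^(-1/2) + (1 + log |a|) (n/|a|)^(1/2)`. -/
noncomputable def rate (a : ℝ) (n : ℕ) : ℝ := 1 / √n + √(n / |a|) * (1 + log |a|)

/-- `f` is a continuously differentiable function of period one and of mean zero. -/
structure Observable (f : ℝ → ℝ) : Prop where
  smooth : ContDiff ℝ 1 f
  periodic : ∀ x, f (x + 1) = f x
  mean : ∫ x in (0:ℝ)..1, f x = 0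

theorem birkhoff_eq (f : ℝ → ℝ) (a : ℝ) (n : ℕ) (x y : ℝ) :
    birkhoff f a n x y = (∑ k ∈ Finset.range n, f (TH705.SM.X a y (k + 1) x)) / √n := by
  unfold birkhoff
  congr 1
  refine Finset.sum_congr rfl fun k _ => ?_
  have h := TH705.SM.iter_plane a y x k
  show f ((fun p : ℝ × ℝ => (2 * p.1 - p.2 + a * sin (2 * π * p.1), p.1))^[k] (x, y)).1 = _
  rw [h]

theorem Observable.deriv {f : ℝ → ℝ} (h : Observable f) (x : ℝ) : HasDerivAt f (deriv f x) x :=
  ((h.smooth.differentiable one_ne_zero) x).hasDerivAt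

/-- **The central limit theorem for the Birkhoff sums of the standard map.** -/
theorem result :
    -- (1) the characteristic function, on every horizontal line, with a rate
    (∀ M : ℝ, 0 ≤ M → ∃ C : ℝ, 0 < C ∧ ∀ f : ℝ → ℝ, Observable f → (∀ x, |f x| ≤ M) →
      (∀ x, |deriv f x| ≤ M) → ∀ a : ℝ, 1 ≤ |a| → ∀ n : ℕ, 1 ≤ n → ∀ y τ : ℝ,
        ‖(∫ x in (0:ℝ)..1, Complex.exp (((τ * birkhoff f a n x y : ℝ) : ℂ) * Complex.I)) -
          ((exp (-(τ ^ 2 * (∫ x in (0:ℝ)..1, f x ^ 2) / 2)) : ℝ) : ℂ)‖ ≤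
            C * (1 + |τ|) ^ 4 * rate a n) ∧
    -- (2) convergence in distribution to the normal law, on any horizontal lines
    (∀ f : ℝ → ℝ, Observable f → (∃ x, f x ≠ 0) →
      ∀ (a : ℕ → ℝ) (n : ℕ → ℕ), (∀ j, 1 ≤ |a j|) → (∀ j, 1 ≤ n j) →
        Tendsto (fun j => rate (a j) (n j)) atTop (𝓝 0) → ∀ (y : ℕ → ℝ) (z : ℝ),
        Tendsto (fun j => volume {x : ℝ | x ∈ Set.Ioc (0:ℝ) 1 ∧
            birkhoff f (a j) (n j) x (y j) ≤ z}) atTop
          (𝓝 (gaussianReal 0 (∫ x in (0:ℝ)..1, f x ^ 2).toNNReal (Set.Iic z)))) := by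
  refine ⟨?_, ?_⟩
  · intro M hM
    obtain ⟨C, hC, H⟩ := TH705.SM.clt2 hM
    refine ⟨C, hC, ?_⟩
    intro f hf h0 h1 a ha n hn y τ
    have h := H f (deriv f) hf.deriv (hf.smooth.continuous_deriv le_rfl) hf.periodic h0 h1 hf.mean
      _ rfl a ha n hn y τ
    have e : ∀ x, Complex.exp (((τ * birkhoff f a n x y : ℝ) : ℂ) * Complex.I) =
        TH705.SM.E (τ / √n * ∑ k ∈ Finset.range n, f (TH705.SM.X a y (k + 1) x)) := by
      intro x
      unfold TH705.SM.E
      rw [birkhoff_eq]
      congr 3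
      ring
    simp_rw [e]
    exact h
  · intro f hf hne a n ha hn hr y z
    have hc : Continuous f := hf.smooth.continuous
    have hv : 0 < ∫ x in (0:ℝ)..1, f x ^ 2 := by
      obtain ⟨x0, hx0⟩ := hne
      have hper : Function.Periodic f 1 := hf.periodic
      obtain ⟨x1, hx1, e1⟩ := hper.exists_mem_Ico₀ one_pos x0
      rw [intervalIntegral.integral_of_le zero_le_one]
      have h2 : Continuous fun x => f x ^ 2 := hc.pow 2
      rw [MeasureTheory.integral_pos_iff_support_of_nonneg (fun x => sq_nonneg _)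
        (h2.integrableOn_Ioc)]
      rw [e1] at hx0
      have hopen : IsOpen (Function.support fun x => f x ^ 2) := h2.isOpen_support
      have hmem : x1 ∈ Function.support fun x => f x ^ 2 := by
        simpa using hx0
      obtain ⟨ε, hε, hball⟩ := Metric.isOpen_iff.1 hopen x1 hmem
      have hsub : Set.Ioo x1 (min (x1 + ε) 1) ⊆
          (Function.support fun x => f x ^ 2) ∩ Set.Ioc 0 1 := by
        intro x hx
        refine ⟨hball ?_, ?_, ?_⟩
        · rw [Metric.mem_ball, Real.dist_eq, abs_of_pos (by linarith [hx.1])]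
          have := lt_of_lt_of_le hx.2 (min_le_left _ _)
          linarith
        · exact lt_of_le_of_lt hx1.1 hx.1
        · exact (lt_of_lt_of_le hx.2 (min_le_right _ _)).le
      have h3 : (0 : ENNReal) < volume (Set.Ioo x1 (min (x1 + ε) 1)) := by
        rw [Real.volume_Ioo, ENNReal.ofReal_pos, sub_pos]
        exact lt_min (by linarith) hx1.2
      have h4 := lt_of_lt_of_le h3 (measure_mono hsub)
      rwa [Measure.restrict_apply₀' measurableSet_Ioc.nullMeasurableSet]
    simp_rw [birkhoff_eq]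
    exact TH705.SM.clt_seq (rate := rate) (fun M hM => TH705.SM.clt2 hM) hf.deriv
      (hf.smooth.continuous_deriv le_rfl) hf.periodic hf.mean hv rfl ha hn hr y z

end Pool.Agent.Results.MP_9ee088_an.BirkhoffSums
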