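import Pool.Agent.TH705.SM.Corr

set_option autoImplicit false

/-!
# Decay of correlations of the standard map, for every large parameter

Let `S_a (x, y) = (2x - y + a sin 2πx, x)` on the torus.  For products of functions of one
coordinate, the correlation after `n ≥ 3` iterations is `O(√(n / |a|))`, for every `a ≠ 0`.  Hence
for all square integrable `u`, `v`, the correlations of `u ∘ S_a^n` and `v` are small, uniformly for
`3 ≤ n ≤ δ |a|`.
-/

open Real MeasureTheory Filter Topology

namespace Pool.Agent.Results.MP_9ee088_an.DecayOfCorrelations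

/-- The torus `ℝ² / ℤ²`, with its Lebesgue measure `volume`. -/
abbrev Torus := UnitAddCircle × UnitAddCircle

/-- `T` is the standard map `S_a` of the torus. -/
def IsStandardMap (a : ℝ) (T : Torus → Torus) : Prop :=
  ∀ x y : ℝ, T ((x : UnitAddCircle), (y : UnitAddCircle)) =
    (((2 * x - y + a * sin (2 * π * x) : ℝ) : UnitAddCircle), (x : UnitAddCircle))

/-- `h` is continuously differentiable and bounded by one on the circle. -/
structure Smooth (h : UnitAddCircle → ℝ) : Prop where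
  smooth : ContDiff ℝ 1 fun t : ℝ => h (t : UnitAddCircle)
  bound : ∀ x, |h x| ≤ 1

/-- The total variation of the continuously differentiable function `h` on the circle. -/
noncomputable def variation (h : UnitAddCircle → ℝ) : ℝ :=
  ∫ x in (0:ℝ)..1, |deriv (fun t : ℝ => h (t : UnitAddCircle)) x|

theorem per (h : UnitAddCircle → ℝ) :
    Function.Periodic (fun t : ℝ => h (t : UnitAddCircle)) 1 := by
  intro t
  show h ((t + 1 : ℝ) : UnitAddCircle) = h (t : UnitAddCircle)
  rw [AddCircle.coe_add, AddCircle.coe_period, add_zero]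

theorem lift_eq (h : UnitAddCircle → ℝ) : (per h).lift = h := by
  funext x
  induction x using QuotientAddGroup.induction_on with
  | H t => exact (per h).lift_coe t

theorem per_deriv (h : UnitAddCircle → ℝ) :
    Function.Periodic (deriv fun t : ℝ => h (t : UnitAddCircle)) 1 := by
  intro t
  have h1 : (fun t : ℝ => h ((t + 1 : ℝ) : UnitAddCircle)) = fun t : ℝ => h (t : UnitAddCircle) :=
    funext (per h)
  have h2 := deriv_comp_add_const (fun t : ℝ => h (t : UnitAddCircle)) 1 t
  rw [h1] at h2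
  exact h2.symm

theorem Smooth.cont {h : UnitAddCircle → ℝ} (hh : Smooth h) : Continuous h := by
  rw [← lift_eq h]
  exact TH705.SM.lift_cont (per h) hh.smooth.continuous

theorem variation_nonneg (h : UnitAddCircle → ℝ) : 0 ≤ variation h :=
  intervalIntegral.integral_nonneg zero_le_one fun _ _ => abs_nonneg _

/-- one step: the first coordinate is asymptotically independent of the rest -/
theorem step : ∃ C : ℝ, 0 < C ∧ ∀ a : ℝ, a ≠ 0 → ∀ n : ℕ, 2 ≤ n →
    ∀ g g2 h h2 : UnitAddCircle → ℝ, Continuous g → (∀ x, |g x| ≤ 1) → Continuous g2 →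
      (∀ x, |g2 x| ≤ 1) → Smooth h → Smooth h2 →
      |∫ p : Torus, (g (((TH705.SM.S a)^[n] p).1) - ∫ x, g x) * h (((TH705.SM.S a)^[n] p).2) *
        (g2 p.1 * h2 p.2)| ≤ C * (1 + variation h + variation h2) * √(n / |a|) := by
  have hK := TH705.SM.l0_ge
  have hK2 : TH705.SM.l0 = 104 * TH705.SM.KK * π ^ 2 := rfl
  refine ⟨2 * TH705.SM.l0 + 6, by linarith, ?_⟩
  intro a ha n hn g g2 h h2 hg hgb hg2 hg2b hh hh2
  set V := ∫ p : Torus, (g (((TH705.SM.S a)^[n] p).1) - ∫ x, g x) *
    h (((TH705.SM.S a)^[n] p).2) * (g2 p.1 * h2 p.2) with hV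
  have ha0 : 0 < |a| := abs_pos.2 ha
  have hn0 : (0:ℝ) < n := by exact_mod_cast (by omega : 0 < n)
  have hv1 := variation_nonneg h
  have hv2 := variation_nonneg h2
  have hr : 0 < √(n / |a|) := Real.sqrt_pos.2 (by positivity)
  set r := √(n / |a|) with hr'
  have hrsq : r ^ 2 = n / |a| := Real.sq_sqrt (by positivity)
  by_cases hl : TH705.SM.l0 ≤ 1 / r
  · have hla : 1 / r ≤ |a| := by
      rw [div_le_iff₀ hr]
      have h1 : 1 / r ≤ 1 / r ^ 2 := by
        apply one_div_le_one_div_of_le (by positivity)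
        have : r ≤ 1 := by
          have h16 : 16 ≤ 1 / r := hK.trans hl
          rw [le_div_iff₀ hr] at h16
          linarith
        nlinarith
      have h2 : 1 / r ^ 2 = |a| / n := by rw [hrsq]; field_simp
      have h3 : |a| / n ≤ |a| := div_le_self ha0.le (by exact_mod_cast (by omega : 1 ≤ n))
      have h4 : |a| * r ^ 2 = n := by rw [hrsq]; field_simp
      have h5 : (1:ℝ) ≤ n := by exact_mod_cast (by omega : 1 ≤ n)
      have h6 : r ≤ 1 := by
        have h16 : 16 ≤ 1 / r := hK.trans hl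
        rw [le_div_iff₀ hr] at h16
        linarith
      nlinarith
    obtain ⟨m, rfl⟩ : ∃ m, n = m + 1 := ⟨n - 1, by omega⟩
    have hm : 1 ≤ m := by omega
    have key := TH705.SM.corr (a := a) (l := 1 / r) hl hla hm (g := g) (g2 := g2) hg hg2 hgb hg2b
      (H1 := fun t : ℝ => h (t : UnitAddCircle)) (H2 := fun t : ℝ => h2 (t : UnitAddCircle))
      (fun x => ((hh.smooth.differentiable one_ne_zero) x).hasDerivAt)
      (hh.smooth.continuous_deriv le_rfl) (per h) (per_deriv h) (fun x => hh.bound _)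
      (fun x => ((hh2.smooth.differentiable one_ne_zero) x).hasDerivAt)
      (hh2.smooth.continuous_deriv le_rfl) (per h2) (per_deriv h2) (fun x => hh2.bound _)
    rw [lift_eq, lift_eq] at key
    refine key.trans ?_
    have e1 : 208 * TH705.SM.KK * π ^ 2 / (1 / r) = 2 * TH705.SM.l0 * r := by
      rw [hK2]; field_simp; ring
    have e2 : 4 / (1 / r) = 4 * r := by field_simp
    have e3 : 2 * (m:ℝ) * (1 / r / |a|) ≤ 2 * r := by
      have : (m:ℝ) ≤ ((m + 1 : ℕ) : ℝ) := by push_cast; linarith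
      have h4 : |a| * r ^ 2 = ((m + 1 : ℕ) : ℝ) := by rw [hrsq]; field_simp
      have h5 : 2 * (m:ℝ) * (1 / r / |a|) = 2 * m / (|a| * r) := by field_simp
      rw [h5, div_le_iff₀ (by positivity)]
      nlinarith
    rw [e1, e2]
    change 2 * TH705.SM.l0 * r + 4 * r * (variation h + variation h2) + _ ≤ _
    have h7 : 0 ≤ TH705.SM.l0 * r * (variation h + variation h2) := by positivity
    have h8 : 0 ≤ r * (variation h + variation h2) := by positivity
    nlinarith
  · push Not at hl
    have h1 : 1 < TH705.SM.l0 * r := by rwa [div_lt_iff₀ hr] at hl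
    have hV2 : |V| ≤ 2 := by
      have hb : ∀ p : Torus, ‖(g (((TH705.SM.S a)^[n] p).1) - ∫ x, g x) *
          h (((TH705.SM.S a)^[n] p).2) * (g2 p.1 * h2 p.2)‖ ≤ 2 := by
        intro p
        have hgb1 : |∫ x, g x| ≤ 1 := by
          have := norm_integral_le_of_norm_le_const (μ := (volume : Measure UnitAddCircle)) (f := g)
            (C := 1) (Filter.Eventually.of_forall fun x => by rw [norm_eq_abs]; exact hgb x)
          simpa using this
        rw [norm_eq_abs, abs_mul, abs_mul, abs_mul]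
        have i1 : |g (((TH705.SM.S a)^[n] p).1) - ∫ x, g x| ≤ 2 := by
          have := abs_sub (g (((TH705.SM.S a)^[n] p).1)) (∫ x, g x)
          linarith [hgb (((TH705.SM.S a)^[n] p).1)]
        have i2 := hh.bound (((TH705.SM.S a)^[n] p).2)
        have i3 := hg2b p.1
        have i4 := hh2.bound p.2
        have i5 : |g (((TH705.SM.S a)^[n] p).1) - ∫ x, g x| * |h (((TH705.SM.S a)^[n] p).2)| ≤
            2 * 1 := mul_le_mul i1 i2 (abs_nonneg _) (by norm_num)
        have i6 : |g2 p.1| * |h2 p.2| ≤ 1 * 1 := mul_le_mul i3 i4 (abs_nonneg _) (by norm_num)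
        calc _ ≤ (2 * 1) * (1 * 1) := mul_le_mul i5 i6 (by positivity) (by norm_num)
          _ = 2 := by norm_num
      have := norm_integral_le_of_norm_le_const (μ := (volume : Measure Torus))
        (Filter.Eventually.of_forall hb)
      simpa [norm_eq_abs] using this
    have h7 : 0 ≤ (2 * TH705.SM.l0 + 6) * r * (variation h + variation h2) := by positivity
    nlinarith

theorem one_smooth : Smooth fun _ => (1:ℝ) := ⟨contDiff_const, fun _ => by simp⟩

theorem variation_one : variation (fun _ => (1:ℝ)) = 0 := by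
  unfold variation
  simp

theorem variation_smooth_cont {h : UnitAddCircle → ℝ} (hh : Smooth h) : Continuous h := hh.cont

/-- **both coordinates** -/
theorem both : ∃ C : ℝ, 0 < C ∧ ∀ a : ℝ, a ≠ 0 → ∀ n : ℕ, 3 ≤ n →
    ∀ g g2 h h2 : UnitAddCircle → ℝ, Continuous g → (∀ x, |g x| ≤ 1) → Continuous g2 →
      (∀ x, |g2 x| ≤ 1) → Smooth h → Smooth h2 →
      |(∫ p : Torus, (g (((TH705.SM.S a)^[n] p).1) * h (((TH705.SM.S a)^[n] p).2)) *
        (g2 p.1 * h2 p.2)) - ((∫ x, g x) * ∫ x, h x) * ∫ p : Torus, g2 p.1 * h2 p.2| ≤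
        C * (1 + variation h + variation h2) * √(n / |a|) := by
  obtain ⟨C, hC, H⟩ := step
  refine ⟨2 * C, by positivity, ?_⟩
  intro a ha n hn g g2 h h2 hg hgb hg2 hg2b hh hh2
  have ha0 : 0 < |a| := abs_pos.2 ha
  obtain ⟨k, rfl⟩ : ∃ k, n = k + 1 := ⟨n - 1, by omega⟩
  have A := H a ha (k + 1) (by omega) g g2 h h2 hg hgb hg2 hg2b hh hh2
  have B := H a ha k (by omega) h g2 (fun _ => 1) h2 hh.cont hh.bound hg2 hg2b one_smooth hh2
  rw [variation_one] at B
  have hsn : ∀ p : Torus, ((TH705.SM.S a)^[k + 1] p).2 = ((TH705.SM.S a)^[k] p).1 := by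
    intro p
    rw [Function.iterate_succ_apply']
    rfl
  have hit := (TH705.SM.S_cont a).iterate (k + 1)
  have hit' := (TH705.SM.S_cont a).iterate k
  have c1 : Continuous fun p : Torus => g (((TH705.SM.S a)^[k + 1] p).1) :=
    hg.comp (continuous_fst.comp hit)
  have c2 : Continuous fun p : Torus => h (((TH705.SM.S a)^[k + 1] p).2) :=
    hh.cont.comp (continuous_snd.comp hit)
  have c3 : Continuous fun p : Torus => g2 p.1 * h2 p.2 :=
    (hg2.comp continuous_fst).mul (hh2.cont.comp continuous_snd)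
  have c4 : Continuous fun p : Torus => h (((TH705.SM.S a)^[k] p).1) :=
    hh.cont.comp (continuous_fst.comp hit')
  have j1 : Integrable (fun p : Torus => (g (((TH705.SM.S a)^[k + 1] p).1) *
      h (((TH705.SM.S a)^[k + 1] p).2)) * (g2 p.1 * h2 p.2)) :=
    TH705.SM.integrable_cont ((c1.mul c2).mul c3)
  have j2 : Integrable (fun p : Torus => (∫ x, g x) *
      (h (((TH705.SM.S a)^[k] p).1) * (g2 p.1 * h2 p.2))) :=
    (TH705.SM.integrable_cont (c4.mul c3)).const_mul _
  have j3 : Integrable (fun p : Torus => h (((TH705.SM.S a)^[k] p).1) * (g2 p.1 * h2 p.2)) :=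
    TH705.SM.integrable_cont (c4.mul c3)
  have j4 : Integrable (fun p : Torus => (∫ x, h x) * (g2 p.1 * h2 p.2)) :=
    (TH705.SM.integrable_cont c3).const_mul _
  have e1 : (∫ p : Torus, (g (((TH705.SM.S a)^[k + 1] p).1) - ∫ x, g x) *
      h (((TH705.SM.S a)^[k + 1] p).2) * (g2 p.1 * h2 p.2)) =
      (∫ p : Torus, (g (((TH705.SM.S a)^[k + 1] p).1) * h (((TH705.SM.S a)^[k + 1] p).2)) *
        (g2 p.1 * h2 p.2)) -
      (∫ x, g x) * ∫ p : Torus, h (((TH705.SM.S a)^[k] p).1) * (g2 p.1 * h2 p.2) := by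
    rw [← integral_const_mul, ← integral_sub j1 j2]
    congr 1
    funext p
    rw [hsn]
    ring
  have e2 : (∫ p : Torus, (h (((TH705.SM.S a)^[k] p).1) - ∫ x, h x) * 1 * (g2 p.1 * h2 p.2)) =
      (∫ p : Torus, h (((TH705.SM.S a)^[k] p).1) * (g2 p.1 * h2 p.2)) -
        (∫ x, h x) * ∫ p : Torus, g2 p.1 * h2 p.2 := by
    rw [← integral_const_mul, ← integral_sub j3 j4]
    congr 1
    funext p
    ring
  rw [e1] at A
  rw [e2] at B
  have hgb1 : |∫ x, g x| ≤ 1 := by
    have := norm_integral_le_of_norm_le_const (μ := (volume : Measure UnitAddCircle)) (f := g)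
      (C := 1) (Filter.Eventually.of_forall fun x => by rw [norm_eq_abs]; exact hgb x)
    simpa using this
  set I1 := ∫ p : Torus, (g (((TH705.SM.S a)^[k + 1] p).1) * h (((TH705.SM.S a)^[k + 1] p).2)) *
        (g2 p.1 * h2 p.2)
  set I2 := ∫ p : Torus, h (((TH705.SM.S a)^[k] p).1) * (g2 p.1 * h2 p.2)
  set I3 := ∫ p : Torus, g2 p.1 * h2 p.2
  have e3 : I1 - ((∫ x, g x) * ∫ x, h x) * I3 =
      (I1 - (∫ x, g x) * I2) + (∫ x, g x) * (I2 - (∫ x, h x) * I3) := by ring
  have hv1 := variation_nonneg h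
  have hv2 := variation_nonneg h2
  have hmono : √((k:ℝ) / |a|) ≤ √(((k + 1 : ℕ) : ℝ) / |a|) := by
    apply Real.sqrt_le_sqrt
    apply div_le_div_of_nonneg_right _ ha0.le
    push_cast
    linarith
  rw [e3]
  calc _ ≤ |I1 - (∫ x, g x) * I2| + |(∫ x, g x) * (I2 - (∫ x, h x) * I3)| := abs_add_le _ _
    _ ≤ C * (1 + variation h + variation h2) * √(((k + 1 : ℕ) : ℝ) / |a|) +
        1 * (C * (1 + 0 + variation h2) * √((k:ℝ) / |a|)) := by
          rw [abs_mul]
          exact add_le_add A (mul_le_mul hgb1 B (abs_nonneg _) (by norm_num))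
    _ ≤ C * (1 + variation h + variation h2) * √(((k + 1 : ℕ) : ℝ) / |a|) +
        1 * (C * (1 + variation h + variation h2) * √(((k + 1 : ℕ) : ℝ) / |a|)) := by
          gcongr
    _ = _ := by ring

/-! ### square integrable functions -/

/-- the Hilbert space -/
noncomputable abbrev H := Lp ℝ 2 (volume : Measure Torus)

/-- the constant function -/
noncomputable def one : H := (memLp_const (1:ℝ)).toLp (fun _ : Torus => (1:ℝ))

/-- composition with the iterate -/
noncomputable def U (a : ℝ) (n : ℕ) (u : H) : H :=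
  Lp.compMeasurePreserving _ (TH705.SM.iter_mp a n) u

theorem U_add (a : ℝ) (n : ℕ) (u v : H) : U a n (u + v) = U a n u + U a n v :=
  map_add _ _ _

theorem U_norm (a : ℝ) (n : ℕ) (u : H) : ‖U a n u‖ = ‖u‖ :=
  Lp.norm_compMeasurePreserving _ _

theorem U_smul (a : ℝ) (n : ℕ) (c : ℝ) (u : H) : U a n (c • u) = c • U a n u := by
  unfold U
  apply Lp.ext
  have hm := TH705.SM.iter_mp a n
  have h1 := Lp.coeFn_compMeasurePreserving (c • u) hm
  have h2 := Lp.coeFn_compMeasurePreserving u hm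
  have h3 := hm.quasiMeasurePreserving.ae_eq_comp (Lp.coeFn_smul c u)
  have h4 := Lp.coeFn_smul c (Lp.compMeasurePreserving _ hm u)
  filter_upwards [h1, h2, h3, h4] with x i1 i2 i3 i4
  rw [i1, i3, i4]
  simp only [Function.comp_apply, Pi.smul_apply]
  rw [i2]
  rfl

/-- the correlation -/
noncomputable def B (a : ℝ) (n : ℕ) (u v : H) : ℝ :=
  inner ℝ (U a n u) v - inner ℝ u one * inner ℝ v one

theorem B_add_left (a : ℝ) (n : ℕ) (u u' v : H) : B a n (u + u') v = B a n u v + B a n u' v := by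
  unfold B
  rw [U_add, inner_add_left, inner_add_left]
  ring

theorem B_smul_left (a : ℝ) (n : ℕ) (c : ℝ) (u v : H) : B a n (c • u) v = c * B a n u v := by
  unfold B
  rw [U_smul, real_inner_smul_left, real_inner_smul_left]
  ring

theorem B_add_right (a : ℝ) (n : ℕ) (u v v' : H) : B a n u (v + v') = B a n u v + B a n u v' := by
  unfold B
  rw [inner_add_right, inner_add_left]
  ring

theorem B_smul_right (a : ℝ) (n : ℕ) (c : ℝ) (u v : H) : B a n u (c • v) = c * B a n u v := by
  unfold B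
  rw [real_inner_smul_right, real_inner_smul_left]
  ring

theorem B_bound (a : ℝ) (n : ℕ) (u v : H) : |B a n u v| ≤ (1 + ‖one‖ ^ 2) * ‖u‖ * ‖v‖ := by
  unfold B
  have h1 := abs_real_inner_le_norm (U a n u) v
  rw [U_norm] at h1
  have h2 := abs_real_inner_le_norm u one
  have h3 := abs_real_inner_le_norm v one
  calc _ ≤ |inner ℝ (U a n u) v| + |inner ℝ u one * inner ℝ v one| := abs_sub _ _
    _ ≤ ‖u‖ * ‖v‖ + (‖u‖ * ‖one‖) * (‖v‖ * ‖one‖) := by
        rw [abs_mul]
        exact add_le_add h1 (mul_le_mul h2 h3 (abs_nonneg _) (by positivity))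
    _ = _ := by ring

/-- small correlations up to time `δ |a|` -/
def Good (u v : H) : Prop :=
  ∀ ε : ℝ, 0 < ε → ∃ δ : ℝ, 0 < δ ∧ ∀ (a : ℝ) (n : ℕ), 3 ≤ n → (n:ℝ) ≤ δ * |a| → |B a n u v| ≤ ε

theorem Good.add_left {u u' v : H} (h : Good u v) (h' : Good u' v) : Good (u + u') v := by
  intro ε hε
  obtain ⟨δ, hδ, H⟩ := h (ε / 2) (by positivity)
  obtain ⟨δ', hδ', H'⟩ := h' (ε / 2) (by positivity)
  refine ⟨min δ δ', lt_min hδ hδ', fun a n hn hna => ?_⟩
  have i1 := H a n hn (hna.trans (mul_le_mul_of_nonneg_right (min_le_left _ _) (abs_nonneg a)))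
  have i2 := H' a n hn (hna.trans (mul_le_mul_of_nonneg_right (min_le_right _ _) (abs_nonneg a)))
  rw [B_add_left]
  exact (abs_add_le _ _).trans (by linarith)

theorem Good.add_right {u v v' : H} (h : Good u v) (h' : Good u v') : Good u (v + v') := by
  intro ε hε
  obtain ⟨δ, hδ, H⟩ := h (ε / 2) (by positivity)
  obtain ⟨δ', hδ', H'⟩ := h' (ε / 2) (by positivity)
  refine ⟨min δ δ', lt_min hδ hδ', fun a n hn hna => ?_⟩
  have i1 := H a n hn (hna.trans (mul_le_mul_of_nonneg_right (min_le_left _ _) (abs_nonneg a)))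
  have i2 := H' a n hn (hna.trans (mul_le_mul_of_nonneg_right (min_le_right _ _) (abs_nonneg a)))
  rw [B_add_right]
  exact (abs_add_le _ _).trans (by linarith)

theorem Good.smul_left {u v : H} (h : Good u v) (c : ℝ) : Good (c • u) v := by
  intro ε hε
  obtain ⟨δ, hδ, H⟩ := h (ε / (|c| + 1)) (by positivity)
  refine ⟨δ, hδ, fun a n hn hna => ?_⟩
  have i1 := H a n hn hna
  rw [B_smul_left, abs_mul]
  have h2 : |c| * (ε / (|c| + 1)) ≤ ε := by
    rw [mul_div_assoc', div_le_iff₀ (by positivity)]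
    nlinarith [abs_nonneg c]
  exact (mul_le_mul_of_nonneg_left i1 (abs_nonneg c)).trans h2

theorem Good.smul_right {u v : H} (h : Good u v) (c : ℝ) : Good u (c • v) := by
  intro ε hε
  obtain ⟨δ, hδ, H⟩ := h (ε / (|c| + 1)) (by positivity)
  refine ⟨δ, hδ, fun a n hn hna => ?_⟩
  have i1 := H a n hn hna
  rw [B_smul_right, abs_mul]
  have h2 : |c| * (ε / (|c| + 1)) ≤ ε := by
    rw [mul_div_assoc', div_le_iff₀ (by positivity)]
    nlinarith [abs_nonneg c]
  exact (mul_le_mul_of_nonneg_left i1 (abs_nonneg c)).trans h2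

theorem good_zero_left (v : H) : Good 0 v := by
  intro ε hε
  refine ⟨1, one_pos, fun a n _ _ => ?_⟩
  have := B_smul_left a n 0 0 v
  rw [zero_smul, zero_mul] at this
  rw [this, abs_zero]
  exact hε.le

theorem good_zero_right (u : H) : Good u 0 := by
  intro ε hε
  refine ⟨1, one_pos, fun a n _ _ => ?_⟩
  have := B_smul_right a n 0 u 0
  rw [zero_smul, zero_mul] at this
  rw [this, abs_zero]
  exact hε.le

theorem good_closed_left {s : Set H} (hs : Dense s) {v : H} (h : ∀ u ∈ s, Good u v) (u : H) :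
    Good u v := by
  intro ε hε
  set K := (1 + ‖one‖ ^ 2) * (‖v‖ + 1) with hK
  have hK0 : 0 < K := by positivity
  obtain ⟨u', hu', hd⟩ := hs.exists_dist_lt u (show 0 < ε / (2 * K) by positivity)
  obtain ⟨δ, hδ, H⟩ := h u' hu' (ε / 2) (by positivity)
  refine ⟨δ, hδ, fun a n hn hna => ?_⟩
  have e : B a n u v = B a n (u - u') v + B a n u' v := by
    rw [← B_add_left, sub_add_cancel]
  have i1 := B_bound a n (u - u') v
  have i2 := H a n hn hna
  rw [dist_eq_norm] at hd
  have i3 : (1 + ‖one‖ ^ 2) * ‖u - u'‖ * ‖v‖ ≤ ε / 2 := by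
    calc (1 + ‖one‖ ^ 2) * ‖u - u'‖ * ‖v‖ ≤ (1 + ‖one‖ ^ 2) * ‖u - u'‖ * (‖v‖ + 1) := by
          gcongr
          linarith
      _ = K * ‖u - u'‖ := by rw [hK]; ring
      _ ≤ K * (ε / (2 * K)) := by gcongr
      _ = ε / 2 := by field_simp
  rw [e]
  exact (abs_add_le _ _).trans (by linarith)

theorem good_closed_right {s : Set H} (hs : Dense s) {u : H} (h : ∀ v ∈ s, Good u v) (v : H) :
    Good u v := by
  intro ε hε
  set K := (1 + ‖one‖ ^ 2) * (‖u‖ + 1) with hK
  have hK0 : 0 < K := by positivity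
  obtain ⟨v', hv', hd⟩ := hs.exists_dist_lt v (show 0 < ε / (2 * K) by positivity)
  obtain ⟨δ, hδ, H⟩ := h v' hv' (ε / 2) (by positivity)
  refine ⟨δ, hδ, fun a n hn hna => ?_⟩
  have e : B a n u v = B a n u (v - v') + B a n u v' := by
    rw [← B_add_right, sub_add_cancel]
  have i1 := B_bound a n u (v - v')
  have i2 := H a n hn hna
  rw [dist_eq_norm] at hd
  have i3 : (1 + ‖one‖ ^ 2) * ‖u‖ * ‖v - v'‖ ≤ ε / 2 := by
    calc (1 + ‖one‖ ^ 2) * ‖u‖ * ‖v - v'‖ ≤ (1 + ‖one‖ ^ 2) * (‖u‖ + 1) * ‖v - v'‖ := by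
          gcongr
          linarith
      _ = K * ‖v - v'‖ := by rw [hK]
      _ ≤ K * (ε / (2 * K)) := by gcongr
      _ = ε / 2 := by field_simp
  rw [e]
  exact (abs_add_le _ _).trans (by linarith)

/-- products of smooth functions of one coordinate -/
noncomputable def prods : Submonoid C(Torus, ℝ) where
  carrier := {f | ∃ g h : UnitAddCircle → ℝ, Smooth g ∧ Smooth h ∧ ∀ p : Torus, f p = g p.1 * h p.2}
  one_mem' := ⟨fun _ => 1, fun _ => 1, one_smooth, one_smooth, fun p => by simp⟩
  mul_mem' := by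
    rintro f f' ⟨g, h, hg, hh, e⟩ ⟨g', h', hg', hh', e'⟩
    refine ⟨fun x => g x * g' x, fun x => h x * h' x, ⟨hg.smooth.mul hg'.smooth, fun x => ?_⟩,
      ⟨hh.smooth.mul hh'.smooth, fun x => ?_⟩, fun p => ?_⟩
    · rw [abs_mul]
      exact mul_le_one₀ (hg.bound x) (abs_nonneg _) (hg'.bound x)
    · rw [abs_mul]
      exact mul_le_one₀ (hh.bound x) (abs_nonneg _) (hh'.bound x)
    · rw [ContinuousMap.mul_apply, e, e']
      ring

theorem re_mem (k : Bool) : Smooth fun x : UnitAddCircle =>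
    if k then (AddCircle.toCircle x : ℂ).re else (AddCircle.toCircle x : ℂ).im := by
  have e : ∀ t : ℝ, ((AddCircle.toCircle (t : UnitAddCircle) : Circle) : ℂ) =
      Complex.exp (((2 * π * t : ℝ) : ℂ) * Complex.I) := by
    intro t
    rw [AddCircle.toCircle_apply_mk, Circle.coe_exp, div_one]
  have hn : ∀ x : UnitAddCircle, ‖(AddCircle.toCircle x : ℂ)‖ = 1 := fun x => Circle.norm_coe _
  cases k
  · refine ⟨?_, fun x => ?_⟩
    · have : (fun t : ℝ => if false = true then (AddCircle.toCircle (t : UnitAddCircle) : ℂ).re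
          else (AddCircle.toCircle (t : UnitAddCircle) : ℂ).im) = fun t : ℝ => sin (2 * π * t) := by
        funext t
        simp only [Bool.false_eq_true, if_false]
        rw [e, Complex.exp_ofReal_mul_I_im]
      rw [this]
      fun_prop
    · simp only [Bool.false_eq_true, if_false]
      exact (Complex.abs_im_le_norm _).trans (hn x).le
  · refine ⟨?_, fun x => ?_⟩
    · have : (fun t : ℝ => if true = true then (AddCircle.toCircle (t : UnitAddCircle) : ℂ).re
          else (AddCircle.toCircle (t : UnitAddCircle) : ℂ).im) = fun t : ℝ => cos (2 * π * t) := by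
        funext t
        simp only [if_true]
        rw [e, Complex.exp_ofReal_mul_I_re]
      rw [this]
      fun_prop
    · simp only [if_true]
      exact (Complex.abs_re_le_norm _).trans (hn x).le

theorem exists_sep {x y : UnitAddCircle} (h : x ≠ y) : ∃ g, Smooth g ∧ g x ≠ g y := by
  by_contra hc
  push Not at hc
  have h1 := hc _ (re_mem true)
  have h2 := hc _ (re_mem false)
  simp only [if_true, Bool.false_eq_true, if_false] at h1 h2
  exact h (AddCircle.injective_toCircle one_ne_zero (Circle.ext (Complex.ext h1 h2)))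

/-- the algebra of trigonometric type -/
noncomputable def alg : Subalgebra ℝ C(Torus, ℝ) := Algebra.adjoin ℝ (prods : Set C(Torus, ℝ))

theorem alg_sep : alg.SeparatesPoints := by
  intro p q hpq
  by_cases h : p.1 = q.1
  · have h2 : p.2 ≠ q.2 := fun e => hpq (Prod.ext h e)
    obtain ⟨g, hg, hne⟩ := exists_sep h2
    refine ⟨_, ⟨⟨fun r : Torus => 1 * g r.2, continuous_const.mul (hg.cont.comp continuous_snd)⟩,
      Algebra.subset_adjoin ⟨fun _ => 1, g, one_smooth, hg, fun p => rfl⟩, rfl⟩, ?_⟩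
    simpa using hne
  · obtain ⟨g, hg, hne⟩ := exists_sep h
    refine ⟨_, ⟨⟨fun r : Torus => g r.1 * 1, (hg.cont.comp continuous_fst).mul continuous_const⟩,
      Algebra.subset_adjoin ⟨g, fun _ => 1, hg, one_smooth, fun p => rfl⟩, rfl⟩, ?_⟩
    simpa using hne

theorem alg_dense : Dense (alg : Set C(Torus, ℝ)) := by
  have h := ContinuousMap.subalgebra_topologicalClosure_eq_top_of_separatesPoints alg alg_sep
  have h2 := congrArg (fun A : Subalgebra ℝ C(Torus, ℝ) => (A : Set C(Torus, ℝ))) h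
  rw [dense_iff_closure_eq]
  simpa [Subalgebra.topologicalClosure_coe] using h2

theorem alg_eq : Subalgebra.toSubmodule alg = Submodule.span ℝ (prods : Set C(Torus, ℝ)) := by
  unfold alg
  rw [Algebra.adjoin_eq_span, Submonoid.closure_eq]

/-- the inclusion in the Hilbert space -/
noncomputable def J : C(Torus, ℝ) →L[ℝ] H := ContinuousMap.toLp 2 volume ℝ

theorem J_eq (f : C(Torus, ℝ)) : ⇑(J f) =ᵐ[volume] f := ContinuousMap.coeFn_toLp (p := 2) (𝕜 := ℝ) volume f

theorem dense_set : Dense (J '' (alg : Set C(Torus, ℝ))) := by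
  have h : DenseRange (J : C(Torus, ℝ) → H) :=
    ContinuousMap.toLp_denseRange ℝ volume ℝ (by simp)
  exact h.dense_image J.continuous alg_dense

theorem B_eq (a : ℝ) (n : ℕ) {u v : Torus → ℝ} (hu : MemLp u 2 volume) (hv : MemLp v 2 volume) :
    B a n (hu.toLp u) (hv.toLp v) =
      (∫ p : Torus, u ((TH705.SM.S a)^[n] p) * v p) - (∫ p, u p) * ∫ p, v p := by
  unfold B
  have hone : ∀ {w : Torus → ℝ} (hw : MemLp w 2 volume),
      inner ℝ (hw.toLp w) one = ∫ p, w p := by
    intro w hw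
    rw [L2.inner_def]
    apply integral_congr_ae
    filter_upwards [hw.coeFn_toLp, (memLp_const (μ := (volume : Measure Torus)) (p := 2)
      (1:ℝ)).coeFn_toLp] with x i1 i2
    unfold one
    rw [i1, i2]
    simp
  rw [hone hu, hone hv]
  congr 1
  rw [L2.inner_def]
  have hm := TH705.SM.iter_mp a n
  have e : U a n (hu.toLp u) = (hu.comp_measurePreserving hm).toLp _ := rfl
  rw [e]
  apply integral_congr_ae
  filter_upwards [hv.coeFn_toLp, (hu.comp_measurePreserving hm).coeFn_toLp] with x i1 i2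
  rw [i1, i2]
  simp [mul_comm]

theorem J_toLp (f : C(Torus, ℝ)) : ∃ hf : MemLp (f : Torus → ℝ) 2 volume, J f = hf.toLp f := by
  have hf : MemLp (f : Torus → ℝ) 2 volume := (Lp.memLp (J f)).ae_eq (J_eq f)
  refine ⟨hf, ?_⟩
  apply Lp.ext
  exact (J_eq f).trans hf.coeFn_toLp.symm

theorem good_prods {f f' : C(Torus, ℝ)} (hf : f ∈ prods) (hf' : f' ∈ prods) :
    Good (J f) (J f') := by
  obtain ⟨C, hC, HC⟩ := both
  obtain ⟨g, h, hg, hh, e⟩ := hf
  obtain ⟨g2, h2, hg2, hh2, e2⟩ := hf'
  obtain ⟨m1, q1⟩ := J_toLp f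
  obtain ⟨m2, q2⟩ := J_toLp f'
  intro ε hε
  set K := C * (1 + variation h + variation h2) with hK
  have hv1 := variation_nonneg h
  have hv2 := variation_nonneg h2
  have hK0 : 0 < K := by positivity
  refine ⟨(ε / K) ^ 2, by positivity, fun a n hn hna => ?_⟩
  have ha : a ≠ 0 := by
    rintro rfl
    rw [abs_zero, mul_zero] at hna
    have : (3:ℝ) ≤ n := by exact_mod_cast hn
    linarith
  have ha0 : 0 < |a| := abs_pos.2 ha
  rw [q1, q2, B_eq a n m1 m2]
  have key := HC a ha n hn g g2 h h2 hg.cont hg.bound hg2.cont hg2.bound hh hh2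
  have i1 : (∫ p : Torus, f p) = (∫ x, g x) * ∫ x, h x := by
    simp_rw [e]
    exact integral_prod_mul g h
  have i2 : (∫ p : Torus, f' p) = ∫ p : Torus, g2 p.1 * h2 p.2 := by simp_rw [e2]
  have i3 : (∫ p : Torus, f ((TH705.SM.S a)^[n] p) * f' p) =
      ∫ p : Torus, (g (((TH705.SM.S a)^[n] p).1) * h (((TH705.SM.S a)^[n] p).2)) *
        (g2 p.1 * h2 p.2) := by simp_rw [e, e2]
  rw [i1, i2, i3]
  refine key.trans ?_
  have h5 : √(n / |a|) ≤ ε / K := by
    rw [show ε / K = √((ε / K) ^ 2) from (Real.sqrt_sq (by positivity)).symm]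
    apply Real.sqrt_le_sqrt
    rwa [div_le_iff₀ ha0]
  calc K * √(n / |a|) ≤ K * (ε / K) := by gcongr
    _ = ε := by field_simp

theorem good_span_right {f f' : C(Torus, ℝ)} (hf : f ∈ prods)
    (hf' : f' ∈ Submodule.span ℝ (prods : Set C(Torus, ℝ))) : Good (J f) (J f') := by
  induction hf' using Submodule.span_induction with
  | mem f' hf2 => exact good_prods hf hf2
  | zero => rw [map_zero]; exact good_zero_right _
  | add x y _ _ i1 i2 => rw [map_add]; exact i1.add_right i2
  | smul c x _ i1 => rw [map_smul]; exact i1.smul_right c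

theorem good_span {f f' : C(Torus, ℝ)} (hf : f ∈ Submodule.span ℝ (prods : Set C(Torus, ℝ)))
    (hf' : f' ∈ Submodule.span ℝ (prods : Set C(Torus, ℝ))) : Good (J f) (J f') := by
  induction hf using Submodule.span_induction with
  | mem f hf1 => exact good_span_right hf1 hf'
  | zero => rw [map_zero]; exact good_zero_left _
  | add x y _ _ i1 i2 => rw [map_add]; exact i1.add_left i2
  | smul c x _ i1 => rw [map_smul]; exact i1.smul_left c

theorem good_all (u v : H) : Good u v := by
  refine good_closed_left dense_set ?_ u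
  rintro _ ⟨f, hf, rfl⟩
  refine good_closed_right dense_set ?_ v
  rintro _ ⟨f', hf', rfl⟩
  have hf1 : f ∈ Submodule.span ℝ (prods : Set C(Torus, ℝ)) := by rw [← alg_eq]; exact hf
  have hf2 : f' ∈ Submodule.span ℝ (prods : Set C(Torus, ℝ)) := by rw [← alg_eq]; exact hf'
  exact good_span hf1 hf2

/-- **Decay of correlations of the standard map, for every large parameter.** -/
theorem result :
    -- (1) products of functions of one coordinate, with a rate
    (∃ C : ℝ, 0 < C ∧ ∀ (a : ℝ) (T : Torus → Torus), a ≠ 0 → IsStandardMap a T →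
      ∀ n : ℕ, 3 ≤ n → ∀ g h g' h' : UnitAddCircle → ℝ,
        Continuous g → (∀ x, |g x| ≤ 1) → Continuous g' → (∀ x, |g' x| ≤ 1) →
        Smooth h → Smooth h' →
          |(∫ p : Torus, (g (T^[n] p).1 * h (T^[n] p).2) * (g' p.1 * h' p.2)) -
            (∫ p : Torus, g p.1 * h p.2) * ∫ p : Torus, g' p.1 * h' p.2| ≤
              C * (1 + variation h + variation h') * √(n / |a|)) ∧
    -- (2) square integrable observables, uniformly in time up to `δ |a|`
    (∀ u v : Torus → ℝ, MemLp u 2 volume → MemLp v 2 volume → ∀ ε : ℝ, 0 < ε →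
      ∃ δ : ℝ, 0 < δ ∧ ∀ (a : ℝ) (T : Torus → Torus), IsStandardMap a T →
        ∀ n : ℕ, 3 ≤ n → (n : ℝ) ≤ δ * |a| →
          |(∫ p : Torus, u (T^[n] p) * v p) - (∫ p, u p) * ∫ p, v p| ≤ ε) := by
  refine ⟨?_, ?_⟩
  · obtain ⟨C, hC, HC⟩ := both
    refine ⟨C, hC, ?_⟩
    intro a T ha hT n hn g h g' h' hg hgb hg' hgb' hh hh'
    have hTS : T = TH705.SM.S a := TH705.SM.eq_S a T hT
    subst hTS
    have i1 : (∫ p : Torus, g p.1 * h p.2) = (∫ x, g x) * ∫ x, h x := integral_prod_mul g h
    rw [i1]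
    exact HC a ha n hn g g' h h' hg hgb hg' hgb' hh hh'
  · intro u v hu hv ε hε
    obtain ⟨δ, hδ, HH⟩ := good_all (hu.toLp u) (hv.toLp v) ε hε
    refine ⟨δ, hδ, ?_⟩
    intro a T hT n hn hna
    have hTS : T = TH705.SM.S a := TH705.SM.eq_S a T hT
    subst hTS
    have := HH a n hn hna
    rwa [B_eq a n hu hv] at this

end Pool.Agent.Results.MP_9ee088_an.DecayOfCorrelations
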