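import Pool.Agent.R241.PV4
import Pool.Agent.R241.PV5

set_option autoImplicit false

/-!
# The Poisson law of rare events for the standard map, for every large parameter

`F_a(x, y) = (2x - y + a sin 2πx, x)` is the lift of the standard map `S_a` to the plane.  Let `W` be
a union of finitely many disjoint arcs of the circle, of total length `w`.  Fix the second
coordinate `y` and choose `x` at random in `(0, 1]`.  The number of `k < n` for which the first
coordinate of `F_a^k(x, y)` falls in `W` modulo one is binomial `(n, w)` up to an error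
`O(n (√(w / |a|) + 1 / |a|))`; it is asymptotically Poisson when `n → ∞`, `n w → λ` and
`n / |a| → 0`.  No parameter is excluded, and `y` is arbitrary.
-/

open Real MeasureTheory Filter Topology

namespace Pool.Agent.Results.MP_9ee088_an.PoissonVisits

/-- The lift `(x, y) ↦ (2 x - y + a sin 2 π x, x)` of `S_a` to the plane. -/
noncomputable def planeMap (a : ℝ) (p : ℝ × ℝ) : ℝ × ℝ :=
  (2 * p.1 - p.2 + a * sin (2 * π * p.1), p.1)

/-- The first coordinate of the `k`-th point of the orbit of `(x, y)`. -/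
noncomputable def orbit (a : ℝ) (k : ℕ) (x y : ℝ) : ℝ := ((planeMap a)^[k] (x, y)).1

/-- The distance in the circle `ℝ / ℤ` of two real numbers. -/
noncomputable def circleDist (x c : ℝ) : ℝ := ‖((x - c : ℝ) : UnitAddCircle)‖

/-- The arcs with centres `c i` and radii `ρ i` are disjoint, and of lengths at most `1 / 4`. -/
structure Arcs {r : ℕ} (c ρ : Fin r → ℝ) : Prop where
  nonneg : ∀ i, 0 ≤ ρ i
  small : ∀ i, ρ i ≤ 1 / 8
  disjoint : ∀ i j, i ≠ j → ρ i + ρ j < circleDist (c i) (c j)

/-- The total length of the arcs. -/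
noncomputable def total {r : ℕ} (ρ : Fin r → ℝ) : ℝ := 2 * ∑ i, ρ i

open scoped Classical in
/-- The number of `k < n` for which the `k`-th point of the orbit of `(x, y)` has its first
coordinate in one of the arcs. -/
noncomputable def visits {r : ℕ} (c ρ : Fin r → ℝ) (a : ℝ) (n : ℕ) (x y : ℝ) : ℕ :=
  ((Finset.range n).filter fun k => ∃ i, circleDist (orbit a k x y) (c i) ≤ ρ i).card

/-- The probability that there are exactly `m` visits, `x` being uniform in `(0, 1]`. -/
noncomputable def law {r : ℕ} (c ρ : Fin r → ℝ) (a : ℝ) (n : ℕ) (y : ℝ) (m : ℕ) : ℝ :=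
  volume.real {x : ℝ | x ∈ Set.Ioc (0:ℝ) 1 ∧ visits c ρ a n x y = m}

theorem orbit_eq (a : ℝ) (k : ℕ) (x y : ℝ) : orbit a k x y = TH705.SM.X a y (k + 1) x := by
  have h := TH705.SM.iter_plane a y x k
  show ((fun p : ℝ × ℝ => (2 * p.1 - p.2 + a * sin (2 * π * p.1), p.1))^[k] (x, y)).1 = _
  rw [h]

theorem visits_eq {r : ℕ} (c ρ : Fin r → ℝ) (a : ℝ) (n : ℕ) (x y : ℝ) :
    visits c ρ a n x y = R241.PV.cnt a y c ρ n x := by
  unfold visits R241.PV.cnt
  congr 1
  apply Finset.filter_congr
  intro k _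
  rw [orbit_eq]
  rfl

theorem law_eq {r : ℕ} (c ρ : Fin r → ℝ) (a : ℝ) (n : ℕ) (y : ℝ) (m : ℕ) :
    law c ρ a n y m =
      volume.real {t : ℝ | t ∈ Set.Ioc (0:ℝ) 1 ∧ R241.PV.cnt a y c ρ n t = m} := by
  unfold law
  simp only [visits_eq]

/-- the Poisson limit -/
theorem poisson {r : ℕ} {c ρ : ℕ → Fin r → ℝ} {a y : ℕ → ℝ} {n : ℕ → ℕ} {L : ℝ}
    (hA : ∀ᶠ j in atTop, Arcs (c j) (ρ j)) (ha : ∀ᶠ j in atTop, a j ≠ 0)
    (hn : Tendsto n atTop atTop) (hna : Tendsto (fun j => (n j : ℝ) / |a j|) atTop (𝓝 0))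
    (hL : Tendsto (fun j => (n j : ℝ) * total (ρ j)) atTop (𝓝 L)) (m : ℕ) :
    Tendsto (fun j => law (c j) (ρ j) (a j) (n j) (y j) m) atTop
      (𝓝 (exp (-L) * L ^ m / m.factorial)) := by
  obtain ⟨C, hC, H⟩ := R241.PV.binom r
  have h1 := R241.PV.poisson_lim hn
    (hA.mono fun j hj => by
      show 0 ≤ total (ρ j)
      unfold total
      have := Finset.sum_nonneg fun i (_ : i ∈ Finset.univ) => hj.nonneg i
      positivity) hL m
  have h2 : Tendsto (fun j => C * (√((n j : ℝ) * total (ρ j) * ((n j : ℝ) / |a j|)) +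
      (n j : ℝ) / |a j|)) atTop (𝓝 (C * (√(L * 0) + 0))) :=
    (((continuous_sqrt.tendsto _).comp (hL.mul hna)).add hna).const_mul C
  rw [mul_zero, sqrt_zero, add_zero, mul_zero] at h2
  have h3 : Tendsto (fun j => law (c j) (ρ j) (a j) (n j) (y j) m -
      ((n j).choose m : ℝ) * total (ρ j) ^ m * (1 - total (ρ j)) ^ (n j - m)) atTop (𝓝 0) := by
    apply squeeze_zero_norm' _ h2
    filter_upwards [hA, ha] with j hj haj
    have h4 := H (c j) (ρ j) hj.disjoint hj.nonneg hj.small (a j) haj (n j) (y j) m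
    rw [← law_eq] at h4
    rw [norm_eq_abs]
    refine h4.trans (le_of_eq ?_)
    congr 1
    have hn0 : (0:ℝ) ≤ n j := Nat.cast_nonneg _
    have e1 : √((n j : ℝ) * total (ρ j) * ((n j : ℝ) / |a j|)) =
        n j * √(2 * (∑ i, ρ j i) / |a j|) := by
      rw [show (n j : ℝ) * total (ρ j) * ((n j : ℝ) / |a j|) =
        (n j : ℝ) ^ 2 * (2 * (∑ i, ρ j i) / |a j|) by unfold total; ring,
        Real.sqrt_mul (by positivity), Real.sqrt_sq hn0]
    rw [e1]
    ring
  have h5 := h3.add h1
  rw [zero_add] at h5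
  refine h5.congr fun j => ?_
  ring

/-- **The Poisson law of rare events for the standard map.** -/
theorem result :
    -- (1) the law of the number of visits is close to the binomial law
    (∀ r : ℕ, ∃ C : ℝ, 0 < C ∧ ∀ c ρ : Fin r → ℝ, Arcs c ρ → ∀ a : ℝ, a ≠ 0 →
      ∀ (n m : ℕ) (y : ℝ),
        |law c ρ a n y m - (n.choose m) * total ρ ^ m * (1 - total ρ) ^ (n - m)| ≤
          C * (n * (√(total ρ / |a|) + 1 / |a|))) ∧
    -- (2) the Poisson limit law
    (∀ (r : ℕ) (c ρ : ℕ → Fin r → ℝ) (a y : ℕ → ℝ) (n : ℕ → ℕ) (L : ℝ),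
      (∀ᶠ j in atTop, Arcs (c j) (ρ j)) → (∀ᶠ j in atTop, a j ≠ 0) → Tendsto n atTop atTop →
      Tendsto (fun j => (n j : ℝ) / |a j|) atTop (𝓝 0) →
      Tendsto (fun j => (n j : ℝ) * total (ρ j)) atTop (𝓝 L) → ∀ m : ℕ,
        Tendsto (fun j => law (c j) (ρ j) (a j) (n j) (y j) m) atTop
          (𝓝 (exp (-L) * L ^ m / m.factorial))) ∧
    -- (3) the closest approach to a given point
    (∀ (a c y : ℕ → ℝ) (n : ℕ → ℕ), (∀ᶠ j in atTop, a j ≠ 0) → Tendsto n atTop atTop →
      Tendsto (fun j => (n j : ℝ) / |a j|) atTop (𝓝 0) → ∀ t : ℝ, 0 ≤ t →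
        Tendsto (fun j => volume.real {x : ℝ | x ∈ Set.Ioc (0:ℝ) 1 ∧
          ∀ k < n j, t / (2 * n j) < circleDist (orbit (a j) k x (y j)) (c j)}) atTop
            (𝓝 (exp (-t)))) := by
  refine ⟨?_, ?_, ?_⟩
  · intro r
    obtain ⟨C, hC, H⟩ := R241.PV.binom r
    refine ⟨C, hC, ?_⟩
    intro c ρ hA a ha n m y
    have h := H c ρ hA.disjoint hA.nonneg hA.small a ha n y m
    rw [← law_eq] at h
    exact h
  · intro r c ρ a y n L hA ha hn hna hL m
    exact poisson hA ha hn hna hL m
  · intro a c y n ha hn hna t ht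
    have hnr : Tendsto (fun j => (n j : ℝ)) atTop atTop := tendsto_natCast_atTop_atTop.comp hn
    have h1 : ∀ᶠ j in atTop, Arcs (fun _ : Fin 1 => c j) (fun _ : Fin 1 => t / (2 * n j)) := by
      filter_upwards [hnr.eventually (eventually_ge_atTop (4 * t + 1))] with j hj
      have hj0 : (0:ℝ) < n j := by linarith
      refine ⟨fun _ => by positivity, fun _ => ?_, fun i j' h => absurd (Subsingleton.elim i j') h⟩
      rw [div_le_div_iff₀ (by positivity) (by norm_num)]
      linarith
    have h2 : Tendsto (fun j => (n j : ℝ) * total (fun _ : Fin 1 => t / (2 * (n j : ℝ)))) atTop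
        (𝓝 t) := by
      refine tendsto_const_nhds.congr' ?_
      filter_upwards [hnr.eventually (eventually_ge_atTop 1)] with j hj
      have hj0 : (n j : ℝ) ≠ 0 := by linarith
      unfold total
      simp
      field_simp
    have h3 := poisson (y := y) h1 ha hn hna h2 0
    simp only [pow_zero, mul_one, Nat.factorial_zero, Nat.cast_one, div_one] at h3
    refine h3.congr fun j => ?_
    unfold law
    congr 1
    ext x
    apply and_congr_right
    intro _
    unfold visits
    rw [Finset.card_eq_zero, Finset.filter_eq_empty_iff]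
    constructor
    · intro h k hk
      have := h (Finset.mem_range.2 hk)
      push Not at this
      exact this 0
    · intro h k hk
      push Not
      intro _
      exact h k (Finset.mem_range.1 hk)

end Pool.Agent.Results.MP_9ee088_an.PoissonVisits
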