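import Pool.Agent.R241.PW5
import Pool.Agent.R241.PV5

set_option autoImplicit false

/-!
# The Poisson law for the visits of the standard map to small rectangles of the torus

`F_a(x, y) = (2x - y + a sin 2πx, x)` is the lift of the standard map `S_a` to the plane.  Fix `y` and
choose `x` at random in `(0, 1]`.  The number of visits of the orbit of `(x, y)`, up to time `n`, to
a rectangle of the torus with sides `2 ρ` and `2 σ` is asymptotically Poisson of parameter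
`lim 4 n ρ σ`, for squares as soon as `n³ / a² → 0`, wherever the rectangle is placed (periodic
points included).  No parameter is excluded, and `y` is arbitrary.
-/

open Real MeasureTheory Filter Topology

namespace Pool.Agent.Results.MP_9ee088_an.RectangleVisits

/-- The lift `(x, y) ↦ (2 x - y + a sin 2 π x, x)` of `S_a` to the plane. -/
noncomputable def planeMap (a : ℝ) (p : ℝ × ℝ) : ℝ × ℝ :=
  (2 * p.1 - p.2 + a * sin (2 * π * p.1), p.1)

/-- The distance in the circle `ℝ / ℤ` of two real numbers. -/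
noncomputable def circleDist (x c : ℝ) : ℝ := ‖((x - c : ℝ) : UnitAddCircle)‖

/-- The point `p` is, modulo `ℤ²`, in the closed rectangle of centre `(c, d)` and of sides `2 ρ` and
`2 σ`. -/
def InRect (c d ρ σ : ℝ) (p : ℝ × ℝ) : Prop := circleDist p.1 c ≤ ρ ∧ circleDist p.2 d ≤ σ

open scoped Classical in
/-- The number of `k < n` for which the `k`-th point of the orbit of `(x, y)` is in the rectangle. -/
noncomputable def visits (c d ρ σ : ℝ) (a : ℝ) (n : ℕ) (x y : ℝ) : ℕ :=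
  ((Finset.range n).filter fun k => InRect c d ρ σ ((planeMap a)^[k] (x, y))).card

/-- The probability that there are exactly `m` visits, `x` being uniform in `(0, 1]`. -/
noncomputable def law (c d ρ σ : ℝ) (a : ℝ) (n : ℕ) (y : ℝ) (m : ℕ) : ℝ :=
  volume.real {x : ℝ | x ∈ Set.Ioc (0:ℝ) 1 ∧ visits c d ρ σ a n x y = m}

theorem iter_eq (a : ℝ) (k : ℕ) (x y : ℝ) :
    (planeMap a)^[k] (x, y) = (TH705.SM.X a y (k + 1) x, TH705.SM.X a y k x) :=
  TH705.SM.iter_plane a y x k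

theorem visits_eq (c d ρ σ : ℝ) (a : ℝ) (n : ℕ) (x y : ℝ) :
    visits c d ρ σ a n x y = R241.PW.cnt2 a y c d ρ σ n x := by
  classical
  unfold visits R241.PW.cnt2
  congr 1
  apply Finset.filter_congr
  intro k _
  rw [iter_eq]
  rfl

theorem law_eq (c d ρ σ : ℝ) (a : ℝ) (n : ℕ) (y : ℝ) (m : ℕ) :
    law c d ρ σ a n y m =
      volume.real {t : ℝ | t ∈ Set.Ioc (0:ℝ) 1 ∧ R241.PW.cnt2 a y c d ρ σ n t = m} := by
  unfold law
  simp only [visits_eq]

/-- the Poisson limit -/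
theorem poisson {c d ρ σ a y : ℕ → ℝ} {n : ℕ → ℕ} {L : ℝ}
    (hρ : ∀ᶠ j in atTop, 0 ≤ ρ j ∧ ρ j ≤ 1 / 8) (hσ : ∀ᶠ j in atTop, 0 ≤ σ j ∧ σ j ≤ 1 / 8)
    (ha : ∀ᶠ j in atTop, a j ≠ 0) (hn : Tendsto n atTop atTop)
    (hρ0 : Tendsto ρ atTop (𝓝 0))
    (hna : Tendsto (fun j => (n j : ℝ) / |a j|) atTop (𝓝 0))
    (hnρ : Tendsto (fun j => (n j : ℝ) ^ 2 * ρ j / |a j|) atTop (𝓝 0))
    (hL : Tendsto (fun j => (n j : ℝ) * (4 * ρ j * σ j)) atTop (𝓝 L)) (m : ℕ) :
    Tendsto (fun j => law (c j) (d j) (ρ j) (σ j) (a j) (n j) (y j) m) atTop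
      (𝓝 (exp (-L) * L ^ m / m.factorial)) := by
  obtain ⟨C, hC, H⟩ := R241.PW.binom2
  have h1 := R241.PV.poisson_lim hn
    (q := fun j => 4 * ρ j * σ j)
    (by
      filter_upwards [hρ, hσ] with j h h'
      have := h.1
      have := h'.1
      positivity) hL m
  have h2 : Tendsto (fun j => C * (2 * ρ j + (√(2 * ((n j : ℝ) ^ 2 * ρ j / |a j|)) +
      (n j : ℝ) / |a j| + 2 * ρ j * ((n j : ℝ) * (4 * ρ j * σ j))))) atTop
      (𝓝 (C * (2 * 0 + (√(2 * 0) + 0 + 2 * 0 * L)))) :=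
    ((hρ0.const_mul 2).add ((((continuous_sqrt.tendsto _).comp (hnρ.const_mul 2)).add hna).add
      ((hρ0.const_mul 2).mul hL))).const_mul C
  rw [mul_zero, sqrt_zero, zero_mul, add_zero, add_zero, add_zero, mul_zero] at h2
  have h3 : Tendsto (fun j => law (c j) (d j) (ρ j) (σ j) (a j) (n j) (y j) m -
      ((n j).choose m : ℝ) * (4 * ρ j * σ j) ^ m * (1 - 4 * ρ j * σ j) ^ (n j - m)) atTop
      (𝓝 0) := by
    apply squeeze_zero_norm' _ h2
    filter_upwards [hρ, hσ, ha] with j h h' haj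
    have h4 := H (c j) (d j) (ρ j) (σ j) h.1 h.2 h'.1 h'.2 (a j) haj (n j) (y j) m
    rw [← law_eq, show 2 * ρ j * (2 * σ j) = 4 * ρ j * σ j by ring] at h4
    rw [norm_eq_abs]
    refine h4.trans (le_of_eq ?_)
    congr 1
    have hn0 : (0:ℝ) ≤ n j := Nat.cast_nonneg _
    have hρ' := h.1
    have e1 : √(2 * ((n j : ℝ) ^ 2 * ρ j / |a j|)) = n j * √(2 * ρ j / |a j|) := by
      rw [show 2 * ((n j : ℝ) ^ 2 * ρ j / |a j|) = (n j : ℝ) ^ 2 * (2 * ρ j / |a j|) by ring,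
        Real.sqrt_mul (by positivity), Real.sqrt_sq hn0]
    rw [e1]
    ring
  have h5 := h3.add h1
  rw [zero_add] at h5
  refine h5.congr fun j => ?_
  ring

/-- **The Poisson law for the visits to small rectangles.** -/
theorem result :
    -- (1) the law of the number of visits is close to the binomial law
    (∃ C : ℝ, 0 < C ∧ ∀ c d ρ σ : ℝ, 0 ≤ ρ → ρ ≤ 1 / 8 → 0 ≤ σ → σ ≤ 1 / 8 → ∀ a : ℝ, a ≠ 0 →
      ∀ (n m : ℕ) (y : ℝ),
        |law c d ρ σ a n y m - (n.choose m) * (4 * ρ * σ) ^ m * (1 - 4 * ρ * σ) ^ (n - m)| ≤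
          C * (ρ + n * (√(ρ / |a|) + 1 / |a| + ρ ^ 2 * σ))) ∧
    -- (2) the Poisson limit law
    (∀ (c d ρ σ a y : ℕ → ℝ) (n : ℕ → ℕ) (L : ℝ), (∀ᶠ j in atTop, 0 ≤ ρ j) →
      (∀ᶠ j in atTop, 0 ≤ σ j ∧ σ j ≤ 1 / 8) → (∀ᶠ j in atTop, a j ≠ 0) →
      Tendsto n atTop atTop → Tendsto ρ atTop (𝓝 0) →
      Tendsto (fun j => (n j : ℝ) / |a j|) atTop (𝓝 0) →
      Tendsto (fun j => (n j : ℝ) ^ 2 * ρ j / |a j|) atTop (𝓝 0) →
      Tendsto (fun j => (n j : ℝ) * (4 * ρ j * σ j)) atTop (𝓝 L) → ∀ m : ℕ,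
        Tendsto (fun j => law (c j) (d j) (ρ j) (σ j) (a j) (n j) (y j) m) atTop
          (𝓝 (exp (-L) * L ^ m / m.factorial))) ∧
    -- (3) squares: the Poisson limit law up to times `n = o(|a| ^ (2 / 3))`
    (∀ (c d ρ a y : ℕ → ℝ) (n : ℕ → ℕ) (L : ℝ), (∀ᶠ j in atTop, 0 ≤ ρ j) →
      (∀ᶠ j in atTop, a j ≠ 0) → Tendsto n atTop atTop →
      Tendsto (fun j => (n j : ℝ) ^ 3 / a j ^ 2) atTop (𝓝 0) →
      Tendsto (fun j => (n j : ℝ) * (2 * ρ j) ^ 2) atTop (𝓝 L) → ∀ m : ℕ,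
        Tendsto (fun j => law (c j) (d j) (ρ j) (ρ j) (a j) (n j) (y j) m) atTop
          (𝓝 (exp (-L) * L ^ m / m.factorial))) ∧
    -- (4) the closest approach to a given point of the torus
    (∀ (a c d y : ℕ → ℝ) (n : ℕ → ℕ), (∀ᶠ j in atTop, a j ≠ 0) → Tendsto n atTop atTop →
      Tendsto (fun j => (n j : ℝ) ^ 3 / a j ^ 2) atTop (𝓝 0) → ∀ t : ℝ, 0 ≤ t →
        Tendsto (fun j => volume.real {x : ℝ | x ∈ Set.Ioc (0:ℝ) 1 ∧
          ∀ k < n j, √(t / n j) / 2 <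
            max (circleDist ((planeMap (a j))^[k] (x, y j)).1 (c j))
              (circleDist ((planeMap (a j))^[k] (x, y j)).2 (d j))}) atTop
            (𝓝 (exp (-t)))) := by
  have hsmall : ∀ ρ : ℕ → ℝ, (∀ᶠ j in atTop, 0 ≤ ρ j) → Tendsto ρ atTop (𝓝 0) →
      ∀ᶠ j in atTop, 0 ≤ ρ j ∧ ρ j ≤ 1 / 8 := by
    intro ρ h1 h2
    filter_upwards [h1, h2.eventually (Iio_mem_nhds (by norm_num : (0:ℝ) < 1 / 8))] with j hj hj2
    exact ⟨hj, le_of_lt hj2⟩
  -- squares
  have sq : ∀ (c d ρ a y : ℕ → ℝ) (n : ℕ → ℕ) (L : ℝ), (∀ᶠ j in atTop, 0 ≤ ρ j) →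
      (∀ᶠ j in atTop, a j ≠ 0) → Tendsto n atTop atTop →
      Tendsto (fun j => (n j : ℝ) ^ 3 / a j ^ 2) atTop (𝓝 0) →
      Tendsto (fun j => (n j : ℝ) * (2 * ρ j) ^ 2) atTop (𝓝 L) → ∀ m : ℕ,
        Tendsto (fun j => law (c j) (d j) (ρ j) (ρ j) (a j) (n j) (y j) m) atTop
          (𝓝 (exp (-L) * L ^ m / m.factorial)) := by
    intro c d ρ a y n L hρ ha hn hna hL m
    have hnr : Tendsto (fun j => (n j : ℝ)) atTop atTop := tendsto_natCast_atTop_atTop.comp hn
    have hn1 : ∀ᶠ j in atTop, (1:ℝ) ≤ n j := hnr.eventually (eventually_ge_atTop 1)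
    have hρ2 : Tendsto (fun j => ρ j ^ 2) atTop (𝓝 0) := by
      have h1 : Tendsto (fun j => (n j : ℝ) * (2 * ρ j) ^ 2 * (n j : ℝ)⁻¹ / 4) atTop
          (𝓝 (L * 0 / 4)) := (hL.mul (tendsto_inv_atTop_zero.comp hnr)).div_const 4
      rw [mul_zero, zero_div] at h1
      refine h1.congr' ?_
      filter_upwards [hn1] with j hj
      have : (n j : ℝ) ≠ 0 := by linarith
      field_simp
      ring
    have hρ0 : Tendsto ρ atTop (𝓝 0) := by
      have h1 : Tendsto (fun j => √(ρ j ^ 2)) atTop (𝓝 (√0)) :=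
        (continuous_sqrt.tendsto _).comp hρ2
      rw [sqrt_zero] at h1
      refine h1.congr' ?_
      filter_upwards [hρ] with j hj
      exact Real.sqrt_sq hj
    have hroot : Tendsto (fun j => √((n j : ℝ) ^ 3 / a j ^ 2)) atTop (𝓝 0) := by
      have h1 : Tendsto (fun j => √((n j : ℝ) ^ 3 / a j ^ 2)) atTop (𝓝 (√0)) :=
        (continuous_sqrt.tendsto _).comp hna
      rwa [sqrt_zero] at h1
    have hna' : Tendsto (fun j => (n j : ℝ) / |a j|) atTop (𝓝 0) := by
      apply squeeze_zero' (Eventually.of_forall fun j => by positivity) _ hroot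
      filter_upwards [hn1] with j hj
      apply Real.le_sqrt_of_sq_le
      rw [div_pow, sq_abs]
      apply div_le_div_of_nonneg_right _ (by positivity)
      calc (n j : ℝ) ^ 2 = (n j : ℝ) ^ 2 * 1 := (mul_one _).symm
        _ ≤ (n j : ℝ) ^ 2 * n j := by gcongr
        _ = _ := by ring
    have hnρ : Tendsto (fun j => (n j : ℝ) ^ 2 * ρ j / |a j|) atTop (𝓝 0) := by
      have h1 : Tendsto (fun j => √((n j : ℝ) * (2 * ρ j) ^ 2) * √((n j : ℝ) ^ 3 / a j ^ 2) / 2)
          atTop (𝓝 (√L * 0 / 2)) :=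
        (((continuous_sqrt.tendsto _).comp hL).mul hroot).div_const 2
      rw [mul_zero, zero_div] at h1
      refine h1.congr' ?_
      filter_upwards [hρ] with j hj
      have hn0 : (0:ℝ) ≤ n j := Nat.cast_nonneg _
      rw [← Real.sqrt_mul (by positivity), show (n j : ℝ) * (2 * ρ j) ^ 2 *
        ((n j : ℝ) ^ 3 / a j ^ 2) = (2 * ((n j : ℝ) ^ 2 * ρ j / |a j|)) ^ 2 by
          rw [mul_pow 2 ((n j : ℝ) ^ 2 * ρ j / |a j|) 2, div_pow, sq_abs]
          ring, Real.sqrt_sq (by positivity)]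
      ring
    refine poisson (hsmall ρ hρ hρ0) (hsmall ρ hρ hρ0) ha hn hρ0 hna' hnρ ?_ m
    refine hL.congr fun j => ?_
    ring
  refine ⟨?_, ?_, sq, ?_⟩
  · obtain ⟨C, hC, H⟩ := R241.PW.binom2
    refine ⟨8 * C, by positivity, ?_⟩
    intro c d ρ σ h0 h1 k0 k1 a ha n m y
    have h := H c d ρ σ h0 h1 k0 k1 a ha n y m
    rw [← law_eq, show 2 * ρ * (2 * σ) = 4 * ρ * σ by ring] at h
    refine h.trans ?_
    have hn0 : (0:ℝ) ≤ n := Nat.cast_nonneg _
    have e1 : √(2 * ρ / |a|) ≤ 2 * √(ρ / |a|) := by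
      rw [show 2 * ρ / |a| = 2 * (ρ / |a|) by ring, Real.sqrt_mul (by norm_num)]
      apply mul_le_mul_of_nonneg_right _ (Real.sqrt_nonneg _)
      rw [Real.sqrt_le_left (by norm_num)]
      norm_num
    have e2 : 0 ≤ 1 / |a| := by positivity
    have e3 : (2 * ρ) ^ 2 * (2 * σ) = 8 * (ρ ^ 2 * σ) := by ring
    have e4 : 0 ≤ √(ρ / |a|) := Real.sqrt_nonneg _
    have e5 : √(2 * ρ / |a|) + 1 / |a| + (2 * ρ) ^ 2 * (2 * σ) ≤
        8 * (√(ρ / |a|) + 1 / |a| + ρ ^ 2 * σ) := by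
      rw [e3]
      linarith
    have e6 := mul_le_mul_of_nonneg_left e5 hn0
    calc C * (2 * ρ + n * (√(2 * ρ / |a|) + 1 / |a| + (2 * ρ) ^ 2 * (2 * σ)))
        ≤ C * (8 * ρ + n * (8 * (√(ρ / |a|) + 1 / |a| + ρ ^ 2 * σ))) := by
          apply mul_le_mul_of_nonneg_left _ hC.le
          linarith
      _ = _ := by ring
  · intro c d ρ σ a y n L hρ hσ ha hn hρ0 hna hnρ hL m
    exact poisson (hsmall ρ hρ hρ0) hσ ha hn hρ0 hna hnρ hL m
  · intro a c d y n ha hn hna t ht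
    have hnr : Tendsto (fun j => (n j : ℝ)) atTop atTop := tendsto_natCast_atTop_atTop.comp hn
    have h2 : Tendsto (fun j => (n j : ℝ) * (2 * (√(t / n j) / 2)) ^ 2) atTop (𝓝 t) := by
      refine tendsto_const_nhds.congr' ?_
      filter_upwards [hnr.eventually (eventually_ge_atTop 1)] with j hj
      have hj0 : (n j : ℝ) ≠ 0 := by linarith
      rw [show 2 * (√(t / n j) / 2) = √(t / n j) by ring, Real.sq_sqrt (by positivity)]
      field_simp
    have h3 := sq c d (fun j => √(t / n j) / 2) a y n t (Eventually.of_forall fun j => by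
      positivity) ha hn hna h2 0
    simp only [pow_zero, mul_one, Nat.factorial_zero, Nat.cast_one, div_one] at h3
    refine h3.congr fun j => ?_
    classical
    unfold law
    congr 1
    ext x
    apply and_congr_right
    intro _
    unfold visits
    rw [Finset.card_eq_zero, Finset.filter_eq_empty_iff]
    constructor
    · intro h k hk
      have := h (Finset.mem_range.2 hk)
      unfold InRect at this
      rw [lt_max_iff]
      rw [not_and_or, not_le, not_le] at this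
      exact this
    · intro h k hk
      have := h k (Finset.mem_range.1 hk)
      unfold InRect
      rw [lt_max_iff] at this
      rw [not_and_or, not_le, not_le]
      exact this

end Pool.Agent.Results.MP_9ee088_an.RectangleVisits
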